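import Pool.Agent.H91.Atb

set_option autoImplicit false

open H91Atb in
theorem Pool.Agent.Results.MP_fbca0c_an.BothFalse.result :
   
    ∃ (μ : MeasureTheory.Measure ℝ) (ℱ : MeasureTheory.Filtration ℕ Real.measurableSpace),
      MeasureTheory.IsProbabilityMeasure μ ∧ (⨆ k, ℱ k) = Real.measurableSpace ∧
      ∀ p q : ℝ, 0 < p → p < 1 → 1 < q →
        (∃ f : ℝ → ℂ, MeasureTheory.MemLp f ⊤ μ ∧ atb μ ℱ p q f = 0 ∧ 0 < hp μ ℱ p f) ∧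
        (¬ ∃ C : NNReal, ∀ f : ℝ → ℂ, MeasureTheory.MemLp f ⊤ μ →
          hp μ ℱ p f ≤ C * atb μ ℱ p q f) ∧
        ∃ g₀ : ℝ → ℂ, MeasureTheory.MemLp g₀ ⊤ μ ∧
          (∃ C : NNReal, ∀ f : ℝ → ℂ, MeasureTheory.MemLp f ⊤ μ →
            ‖∫ x, f x * g₀ x ∂μ‖ₑ ≤ C * hp μ ℱ p f) ∧
          ∀ g : ℝ → ℂ, MeasureTheory.Integrable g μ →
            (∀ f : ℝ → ℂ, MeasureTheory.MemLp f ⊤ μ →
              ∫ x, f x * g x ∂μ = ∫ x, f x * g₀ x ∂μ) →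
            lip μ ℱ p q g = ⊤ ∧ lipLoc μ ℱ p q g = ⊤ :=
  main
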